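import Pool.Agent.H897.KF

/-!
MP_5c318e_ag, Q1: an inequality of Viehweg's type, with the variation of relative tensors, for the
fibrations whose relative tangent sheaf is stable for a movable class; in every dimension, also for
log canonical pairs and orbifold bases.

**The fibration.** `K` and `L` are the function fields of the total space `X`, of dimension `d + r`,
and of the base `B`, of dimension `d`, of a dominant rational map `X ⇢ B` of relative dimension
`r ≥ 1`, with the generic fibre `F`. `NormalModel y` (`Pool/Agent/Y172/Defs.lean`): `y` is the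
generic point, in homogeneous coordinates, of `X`, a normal projective variety. `Boundary y Δ`: `Δ`
is a `ℚ`-divisor on `X` with coefficients between `0` and `1`. `LogCanonical y n Δ`: the pair
`(X, Δ)` is log canonical. `kodairaDim y n Δ`: the Kodaira dimension of `K_X + Δ`. (`X` smooth and
`Δ = 0` is the case of the question.)

`b Q` are multiplicities of the prime divisors `Q` over `B` (`b = 0` is the case of the question).
`PairSec ℂ L d b {1} s 0 θ`, `PairKod ℂ L d b h` (`Pool/Agent/Y174/BDefs.lean`): `θ` is a
pluricanonical form of weight `s` on `(B, b)`, with poles of order at most `s b Q` along the prime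
divisors `Q` over `B`; the Kodaira dimension of `(B, b)` is at least `h`. `BaseRatio L d b`
(`KE.lean`): the quotients of these forms, of equal weight; they generate the field of the functions
on the Iitaka fibration of `(B, b)`. `OrbMor L y Δ b` (`Pool/Agent/N133/TB/Rel.lean`): if the prime
divisor `P` of `X` lies over `Q` with multiplicity `e`, then `1 - Δ P ≤ e (1 - b Q)` (no condition
if `b = 0`).

**Distributions** (`RF.lean`, `RG.lean`, `VE.lean`, `VG.lean`). `relTan L K`: the relative tangent
sheaf `T_{X/B}`, that is its generic fibre, the `K`-space of the rational vector fields which vanish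
on `L`; it is a saturated subsheaf of the orbifold tangent sheaf `T (X, Δ)` of Campana (the tangent
sheaf, if `Δ = 0`). `WedgeOrd n δ P D e`: `e` is the order along `P` of `D 0 ∧ ⋯ ∧ D (s - 1)` as a
rational section of the exterior power of `T (X, Δ)`, `δ = Δ P`. `MovableClass y α`: `α` is a linear
function on the divisors which is nonnegative on the prime divisors and `0` on principal divisors.
`SubDeg y n Δ α F c`: the degree of the distribution `F` is `c`. `StablePiece y n Δ α ⊥ V`: the sheaf
`V` is `α`-stable, that is the slope of `F` is smaller than the slope of `V` for all distributions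
`0 ≠ F ⊊ V`.

**Tensors.** `T i` are finitely many sections over `X_reg` of `(T_{X/B}^ *) ^ ⊗ m`: `m`-linear forms
on `T_{X/B}` such that the order of `T i D` along each prime divisor is at least the sum of the
orders of the vector fields `D s` as sections of `T (X, Δ)` (`SubTensorAt`); for instance the
restrictions of holomorphic tensors on `X` to the fibres. `co T E`: the coefficients of the tensors
in the basis `E`; `SemiInv ℂ m r W Q` (`Pool/Agent/N133/TB/Stm.lean`): `Q` is a polynomial with
complex coefficients in the coefficients, which is multiplied by `det ^ W` under a change of the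
basis. `ModRatio T E` (`KE.lean`): the moduli of the tensors, the quotients of the values of two
semi-invariants of equal positive weight. `StableFam t`: stability in the sense of Hilbert and
Mumford: `t ≠ 0`, and if all coefficients of negative weight vanish for a basis with integral
weights `w`, `∑ w = 0`, then `w = 0`. `act A t`: the coefficients for the basis `∑ l, A j l • e l`.

`FibreSection L y n Δ E M g` (`KF.lean`): `g` is the value on the basis `E` of a section of
`M (K_F + Δ_F)` on the generic fibre: there is a condition along the horizontal prime divisors.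

**Theorem.** Suppose that `(X, Δ)` is log canonical, that the fibration is a morphism of orbifolds
from `(X, Δ)` to `(B, b)` and `κ (B, b) ≥ 0`, that `T_{X/B}` is `α`-stable of nonnegative degree for
a movable class `α`, and that not all `T i` are zero. Then
(1) some semi-invariant of the `T i`, of a weight `W ≥ 1`, does not vanish; it is a section of
`- W det T_{X/B}`, so `κ (K_F + Δ_F) ≥ 0`; and `κ (K_X + Δ)` is at least the transcendence degree of
the field which is generated by the Iitaka field of `(B, b)` and by the moduli of the `T i`: so
`κ (K_X + Δ) ≥ max (κ (B, b), Var (T))`;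
(2) if the `T i` are stable at the generic point, then there are `κ (K_X + Δ)` functions on `X` such
that in a suitable basis all coefficients of the `T i` are algebraic over the field which is
generated by them;
(3) if `r ≥ 2`, then the moduli of the `T i` are constant along the fibres;
(4) if `r ≥ 2` and `α` vanishes on the vertical divisors, then `κ (K_F + Δ_F) = 0`.
So under the assumption of (4) we have `κ (X) ≥ κ (F) + max (κ (B), Var (T))`, Viehweg's inequality
with the variation of the tensors on the fibres.

**Proof.** Kempf's optimal weighted flag of the generic fibre of `T_{X/B}` for the family of the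
tensors, its first order conditions (Ramanan-Ramanathan) and the product formula for `α` show that
the tensors are semistable. The products of the semi-invariants with pluricanonical forms of
`(B, b)` are sections of multiples of `K_X + Δ`. If `g, g'` are two sections of a divisor `N` with
`2 r deg N ≤ deg T_{X/B}`, then `g' D g - g D g'` is a section of `T_{X/B}^ * ⊗ 2 N`, and the same
argument shows that it is zero for `r ≥ 2`, since a linear form has no invariants. So `g / g'` is
constant along the fibres.
-/

set_option autoImplicit false

open MvPolynomial FF Pool.Agent.W602.GT Pool.Agent.Y172 Pool.Agent.NH31 Pool.Agent.H897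
  Pool.Agent.Y174 Pool.Agent.N133.TB

namespace Pool.Agent.Results.MP_5c318e_ag.StableRelativeTensors

/-- **Viehweg's inequality with the variation of relative tensors**, for fibrations with a stable
relative tangent sheaf. -/
theorem result {L K : Type} [Field L] [Field K] [Algebra ℂ L] [Algebra ℂ K] [Algebra L K]
    [IsScalarTower ℂ L K] {N d r : ℕ} {y : Fin (N + 1) → K} (hy : NormalModel y) (hr : 1 ≤ r)
    (hL : Algebra.trdeg ℂ L = d) (hn : Algebra.trdeg ℂ K = (d + r : ℕ)) {Δ : Place ℂ K → ℚ}
    (hΔ : Boundary y Δ) (hLC : LogCanonical y (d + r) Δ) {b : Place ℂ L → ℝ}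
    (hb : OrbMor L y Δ b) {h : ℕ} (hB : PairKod ℂ L d b h) {α : Place ℂ K → ℝ}
    (hα : MovableClass y α) (hst : StablePiece y (d + r) Δ α ⊥ (relTan L K))
    (hdeg : ∀ c, SubDeg y (d + r) Δ α (relTan L K) c → 0 ≤ c) {m : ℕ} (hm : 1 ≤ m) {ι : Type}
    [Finite ι] {T : ι → MultilinearMap K (fun _ : Fin m => relTan L K) K} (hT0 : ∃ i, T i ≠ 0)
    (hT : ∀ i P, IsPrimeDivisor y P → SubTensorAt (d + r) (Δ P) 0 P (T i))
    {E : Fin r → relTan L K} (hE : LinearIndependent K E) :
    (∃ (W : ℕ) (Q : MvPolynomial (Ix (fun _ : ι => m) r) ℂ), 1 ≤ W ∧
      SemiInv ℂ (fun _ : ι => m) r W Q ∧ aeval (pt (co T E)) Q ≠ 0 ∧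
      ∀ P, IsPrimeDivisor y P → ∀ e : ℝ,
        WedgeOrd (d + r) (Δ P) P (fun i => (E i : Derivation ℂ K K)) e →
          W * e ≤ P.ord (aeval (pt (co T E)) Q)) ∧
    (∃ (κ : ℕ) (u : Fin κ → K), kodairaDim y (d + r) Δ = (κ : WithBot ℕ) ∧
      Algebra.trdeg ℂ (IntermediateField.adjoin ℂ
        (algebraMap L K '' BaseRatio L d b ∪ ModRatio T E)) ≤ κ ∧
      (∀ v ∈ algebraMap L K '' BaseRatio L d b ∪ ModRatio T E,
        IsAlgebraic (IntermediateField.adjoin ℂ (Set.range u)) v) ∧
      (StableFam (fun i J => algebraMap K (AlgebraicClosure K) (co T E i J) :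
        Fam (fun _ : ι => m) r (AlgebraicClosure K)) →
        ∃ A : Matrix (Fin r) (Fin r) (AlgebraicClosure K), A.det ≠ 0 ∧ ∀ i J,
          IsAlgebraic (IntermediateField.adjoin ℂ (Set.range u))
            (act A (fun i J => algebraMap K (AlgebraicClosure K) (co T E i J) :
              Fam (fun _ : ι => m) r (AlgebraicClosure K)) i J))) ∧
    (2 ≤ r → ∀ v ∈ ModRatio T E, IsAlgebraic L v) ∧
    (2 ≤ r → (∀ P, IsPrimeDivisor y P → (∃ f : L, f ≠ 0 ∧ P.ord (algebraMap L K f) ≠ 0) →
      α P = 0) → ∀ (M : ℕ) (g g' : K),
        FibreSection L y (d + r) Δ (fun i => (E i : Derivation ℂ K K)) M g →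
        FibreSection L y (d + r) Δ (fun i => (E i : Derivation ℂ K K)) M g' → g' ≠ 0 →
          IsAlgebraic L (g / g')) := by
  obtain ⟨κ, u, h1, h2, h3, h4, h5⟩ :=
    rel_tensors_main hy hr hL hn hΔ hLC hb hB hα hst hdeg hm hT0 hT hE
  obtain ⟨W, Q, hW, hQ, hQ0⟩ := h3
  exact ⟨⟨W, Q, hW, hQ, hQ0, fun P hP e he => inv_rel_ord hy hr hn hΔ hm hT hE hQ hQ0 hP he⟩,
    ⟨κ, u, h1, h2, h4, h5⟩,
    fun hr2 v hv => mod_const hy hr2 hL hn hΔ hα hst hdeg hm hT hE hv,
    fun hr2 hvert M g g' hg hg' h0 =>
      fibre_kod hy hr2 hL hn hΔ hα hvert hst hdeg hE hg hg' h0⟩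

end Pool.Agent.Results.MP_5c318e_ag.StableRelativeTensors
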